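import Mathlib
import Pool.Agent.P8H75.JN6

/-!
# Domain spaces with the weak maximizing property for all ranges (MP_479f73_an)

If the pair `(E, ℓ_∞)` has the weak maximizing property (WMP), then `E` is finite-dimensional; in
particular this answers Q1 in the affirmative.

Outline.  Suppose that `(E, ℓ_∞)` has the WMP.

* Rank one operators show that every functional on `E` attains its norm.  For such spaces an
  elementary argument gives the Josefson-Nissenzweig theorem: if `E` is infinite-dimensional there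
  are functionals `v_n` of norm one which tend to zero pointwise.  (A separated sequence in the
  dual ball has a pointwise convergent subsequence, or a subsequence equivalent to the basis of
  `ℓ_1`.  In the second case the James distortion argument, Simons' inequality applied to the norm
  attaining functionals, and averaging with respect to the Rademacher functions produce the null
  sequence.)

* Let `‖f‖ < r`, `‖u_n‖ ≤ s < r` and let `u_n` tend to zero pointwise.  Then `‖f + u_n‖ < r`
  eventually.  Otherwise we may assume `‖f + u_n‖ ≥ r` for all `n`, and the operator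
  `x ↦ (β_n (f + u_n)(x) / ‖f + u_n‖)_n` with `β_n` strictly increasing to `1` does not attain its
  norm `1`.  Hence its maximizing sequence `x_n` is weakly null, so `f(x_n) → 0` and
  `limsup |u_n(x_n)| ≥ r > s`, a contradiction.

* By compactness we can select `m_j` such that `∑ c_j |v_{m_j}(x)| ≤ ‖x‖` for all `x`, where
  `c_j < 1`, `c_j → 1`.  Then `f = ∑ c_j ^ 2 v_{m_j}` is a functional of norm `1` which does not
  attain its norm: a contradiction.
-/

set_option autoImplicit false

open Filter Topology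
open scoped ENNReal

namespace Pool.Agent.Results.MP_479f73_an.FiniteDimensional

section defs

variable (𝕜 : Type*) [RCLike 𝕜] {E F : Type*} [NormedAddCommGroup E] [NormedSpace 𝕜 E]
  [NormedAddCommGroup F] [NormedSpace 𝕜 F]

/-- `x` converges weakly to `0`. -/
def WeaklyNull (x : ℕ → E) : Prop :=
  ∀ f : E →L[𝕜] 𝕜, Tendsto (fun n => f (x n)) atTop (𝓝 0)

variable {𝕜}

/-- `x` is a maximizing sequence for `T`: it lies in the unit sphere and `‖T (x n)‖ → ‖T‖`. -/
def MaximizingSeq (T : E →L[𝕜] F) (x : ℕ → E) : Prop :=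
  (∀ n, ‖x n‖ = 1) ∧ Tendsto (fun n => ‖T (x n)‖) atTop (𝓝 ‖T‖)

/-- `T` attains its norm: `‖T x‖ = ‖T‖` for some `x` in the unit sphere. -/
def AttainsNorm (T : E →L[𝕜] F) : Prop := ∃ x : E, ‖x‖ = 1 ∧ ‖T x‖ = ‖T‖

variable (𝕜 E F)

/-- The weak maximizing property of the pair `(E, F)`: every operator from `E` to `F` that has a
maximizing sequence which is not weakly null attains its norm. -/
def WMP : Prop :=
  ∀ T : E →L[𝕜] F, (∃ x : ℕ → E, MaximizingSeq T x ∧ ¬ WeaklyNull 𝕜 x) → AttainsNorm T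

end defs

universe u w

/-- The weak maximizing property only depends on the isometric class of the range. -/
theorem wmp_congr {𝕜 : Type*} [RCLike 𝕜] {E F G : Type*} [NormedAddCommGroup E]
    [NormedSpace 𝕜 E] [NormedAddCommGroup F] [NormedSpace 𝕜 F] [NormedAddCommGroup G]
    [NormedSpace 𝕜 G] (e : F ≃ₗᵢ[𝕜] G) (h : WMP 𝕜 E G) : WMP 𝕜 E F := by
  rintro T ⟨x, ⟨hx1, hx2⟩, hx3⟩
  have hn : ‖(e : F →L[𝕜] G).comp T‖ = ‖T‖ := by
    refine le_antisymm ?_ ?_
    · refine ContinuousLinearMap.opNorm_le_bound _ (norm_nonneg _) fun z => ?_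
      change ‖e (T z)‖ ≤ _
      rw [e.norm_map]
      exact T.le_opNorm z
    · refine ContinuousLinearMap.opNorm_le_bound _ (norm_nonneg _) fun z => ?_
      have h1 := ((e : F →L[𝕜] G).comp T).le_opNorm z
      have h2 : ‖(e : F →L[𝕜] G).comp T z‖ = ‖T z‖ := e.norm_map (T z)
      rwa [h2] at h1
  have hz : ∀ z, ‖(e : F →L[𝕜] G).comp T z‖ = ‖T z‖ := fun z => e.norm_map (T z)
  obtain ⟨y, hy1, hy2⟩ := h ((e : F →L[𝕜] G).comp T) ⟨x, ⟨hx1, by
    rw [hn]
    simpa only [hz] using hx2⟩, hx3⟩
  exact ⟨y, hy1, by rw [hz, hn] at hy2; exact hy2⟩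

/-- **Answer to Q1 (yes).**  Let `𝕜` be `ℝ` or `ℂ` and let `E` be a normed space over `𝕜`.  Then
`(E, F)` has the weak maximizing property for every Banach space `F` if and only if `E` is
finite-dimensional; moreover the single range space `F = ℓ_∞` suffices. -/
theorem result (𝕜 : Type) [RCLike 𝕜] (E : Type u) [NormedAddCommGroup E] [NormedSpace 𝕜 E] :
    ((∀ (F : Type w) [NormedAddCommGroup F] [NormedSpace 𝕜 F] [CompleteSpace F], WMP 𝕜 E F) ↔
      FiniteDimensional 𝕜 E) ∧
    (WMP 𝕜 E (lp (fun _ : ℕ => 𝕜) ∞) ↔ FiniteDimensional 𝕜 E) := by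
  have h1 : WMP 𝕜 E (lp (fun _ : ℕ => 𝕜) ∞) → FiniteDimensional 𝕜 E :=
    fun h => Pool.Agent.P8H75.JN.finite_of_wmp h
  refine ⟨⟨fun h => ?_, fun h F _ _ _ => ?_⟩, ⟨h1, fun h => ?_⟩⟩
  · refine h1 (wmp_congr (G := ULift.{w} (lp (fun _ : ℕ => 𝕜) ∞))
      (LinearIsometryEquiv.ulift 𝕜 (lp (fun _ : ℕ => 𝕜) ∞)).symm ?_)
    have _ : CompleteSpace (ULift.{w} (lp (fun _ : ℕ => 𝕜) ∞)) :=
      (LinearIsometryEquiv.ulift 𝕜 (lp (fun _ : ℕ => 𝕜) ∞)).toIsometryEquiv.completeSpace
    exact h _
  · exact Pool.Agent.P8H75.JN.wmp_of_finite 𝕜 E F h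
  · exact Pool.Agent.P8H75.JN.wmp_of_finite 𝕜 E _ h

end Pool.Agent.Results.MP_479f73_an.FiniteDimensional
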